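import Mathlib

/-!
# From slowly growing to bounded exchange

If for all `M` and all `w → ∞` every dense family at a large level contains a configuration of size
`c ≥ M` and exchange `e ≤ w c`, then for every `h` there is a constant `K` such that every dense family at a
large level contains a configuration with `e ≤ K` and `h e ≤ c` (diagonalisation).
-/

set_option autoImplicit false

namespace Pool.Agent.Lib.MP_90b327_co.BX

open Filter

universe u

theorem bounded_of_slow {X : ℕ → Type u} {D : ∀ N, X N → Prop} {R : ∀ N, X N → ℕ → ℕ → Prop}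
    (hR : ∀ N S c e, R N S c e → c ≤ N)
    (H : ∀ (M : ℕ) (w : ℕ → ℕ), Tendsto w atTop atTop → ∃ N₀ : ℕ, ∀ N, N₀ ≤ N → ∀ S : X N,
      D N S → ∃ c e, R N S c e ∧ M ≤ c ∧ e ≤ w c) (M : ℕ) (h : ℕ → ℕ) :
    ∃ K N₀ : ℕ, ∀ N, N₀ ≤ N → ∀ S : X N, D N S →
      ∃ c e, R N S c e ∧ M ≤ c ∧ e ≤ K ∧ h e ≤ c := by
  by_contra hcon
  push Not at hcon
  choose f hf S hS hbad using hcon
  -- a strictly increasing sequence of bad levels
  obtain ⟨n, hmono, hb⟩ : ∃ n : ℕ → ℕ, StrictMono n ∧ ∀ K, ∃ S : X (n K), D (n K) S ∧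
      ∀ c e, R (n K) S c e → M ≤ c → e ≤ K → c < h e := by
    refine ⟨fun K => Nat.rec (f 0 0) (fun k a => f (k + 1) (a + 1)) K,
      strictMono_nat_of_lt_succ fun k => Nat.lt_of_succ_le (hf (k + 1) _), fun K => ?_⟩
    cases K with
    | zero => exact ⟨S 0 0, hS 0 0, hbad 0 0⟩
    | succ k => exact ⟨S (k + 1) _, hS (k + 1) _, hbad (k + 1) _⟩
  -- the two functions
  have hex : ∀ m, ∃ K, m ≤ n K := fun m => ⟨m, hmono.id_le m⟩
  classical
  obtain ⟨w1, hw1a, hw1b⟩ : ∃ w1 : ℕ → ℕ, (∀ m, m ≤ n (w1 m)) ∧ ∀ m K, m ≤ n K → w1 m ≤ K :=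
    ⟨fun m => Nat.find (p := fun K => m ≤ n K) (hex m),
      fun m => Nat.find_spec (p := fun K => m ≤ n K) (hex m),
      fun m K hK => Nat.find_min' (p := fun K => m ≤ n K) (hex m) hK⟩
  let w2 : ℕ → ℕ := fun m => Nat.findGreatest (fun j => ∀ i ≤ j, h i ≤ m) m
  have hw1 : Tendsto w1 atTop atTop := by
    rw [tendsto_atTop]
    intro b
    filter_upwards [eventually_gt_atTop (n b)] with m hm
    by_contra hlt'
    have h1 : w1 m < b := not_le.1 hlt'
    have h2 : m ≤ n (w1 m) := hw1a m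
    have h3 := hmono.monotone h1.le
    omega
  have hw2 : Tendsto w2 atTop atTop := by
    rw [tendsto_atTop]
    intro b
    obtain ⟨B, hB⟩ : ∃ B, ∀ i ≤ b, h i ≤ B :=
      ⟨(Finset.range (b + 1)).sup h, fun i hi => Finset.le_sup (f := h)
        (Finset.mem_range.2 (Nat.lt_succ_of_le hi))⟩
    filter_upwards [eventually_ge_atTop (max B b)] with m hm
    exact Nat.le_findGreatest (le_trans (le_max_right _ _) hm)
      (fun i hi => (hB i hi).trans ((le_max_left _ _).trans hm))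
  have hw : Tendsto (fun m => min (w1 m) (w2 m)) atTop atTop := by
    rw [tendsto_atTop] at hw1 hw2 ⊢
    intro b
    filter_upwards [hw1 b, hw2 b] with m h1 h2
    exact le_min h1 h2
  obtain ⟨N₀, hN₀⟩ := H (max M (h 0)) _ hw
  obtain ⟨T, hT, hTb⟩ := hb N₀
  obtain ⟨c, e, hc, hM, he⟩ := hN₀ (n N₀) (hmono.id_le N₀) T hT
  have hcN := hR _ _ _ _ hc
  have h1 : e ≤ N₀ := (he.trans (min_le_left _ _)).trans (hw1b c N₀ hcN)
  have h2 := hTb c e hc ((le_max_left _ _).trans hM) h1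
  have h3 : e ≤ w2 c := he.trans (min_le_right _ _)
  have h4 : h e ≤ c := by
    by_cases h0 : w2 c = 0
    · have h5 : e = 0 := by omega
      rw [h5]
      exact (le_max_right _ _).trans hM
    · have h5 : ∀ i ≤ w2 c, h i ≤ c := Nat.findGreatest_of_ne_zero (P := fun j => ∀ i ≤ j, h i ≤ c) rfl h0
      exact h5 e h3
  omega

end Pool.Agent.Lib.MP_90b327_co.BX
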