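import Mathlib
import Pool.Agent.Lib.MP_90b327_co.EX.EFin
import Pool.Agent.Lib.MP_90b327_co.BX.Bounded

/-!
# Squares up to a bounded exchange (`d = 2`)
-/

set_option autoImplicit false

namespace Pool.Agent.Lib.MP_90b327_co.BX

open Filter Pool.Agent.Lib.MP_90b327_co Pool.Agent.Lib.MP_90b327_co.RB Pool.Agent.Lib.MP_90b327_co.EX

theorem squares_bounded (δ : ℝ) (hδ : 0 < δ) (M : ℕ) (h : ℕ → ℕ) :
    ∃ K N₀ : ℕ, ∀ N : ℕ, N₀ ≤ N → ∀ S : Finset (Finset (Fin 2 → Fin N)),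
      (S.card : ℝ) > δ * (2 : ℝ) ^ (N ^ 2) →
        ∃ A ∈ S, ∃ γ γ' : Finset (Fin N), γ.Nonempty ∧ M ≤ γ.card ∧ γ'.card = γ.card ∧
          (γ' \ γ).card ≤ K ∧ h (γ' \ γ).card ≤ γ.card ∧
          Disjoint A (Fintype.piFinset ![γ, γ']) ∧ A ∪ Fintype.piFinset ![γ, γ'] ∈ S := by
  have key := bounded_of_slow (X := fun N => Finset (Finset (Fin 2 → Fin N)))
    (D := fun N S => (S.card : ℝ) > δ * (2 : ℝ) ^ (N ^ 2))
    (R := fun N S c e => ∃ A ∈ S, ∃ γ γ' : Finset (Fin N), γ.Nonempty ∧ γ.card = c ∧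
      γ'.card = γ.card ∧ (γ' \ γ).card = e ∧ Disjoint A (Fintype.piFinset ![γ, γ']) ∧
      A ∪ Fintype.piFinset ![γ, γ'] ∈ S)
    (by
      rintro N S c e ⟨A, hA, γ, γ', h1, h2, h3, h4, h5, h6⟩
      rw [← h2]
      simpa using Finset.card_le_univ γ)
    (by
      intro M w hw
      obtain ⟨N₀, h₀⟩ := exb δ hδ M w hw
      refine ⟨N₀, fun N hN S hS => ?_⟩
      obtain ⟨A, hA, γ, γ', h1, h2, h3, h4, h5, h6⟩ := h₀ N hN S hS
      have e : bx γ γ' = Fintype.piFinset ![γ, γ'] := by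
        ext c
        simp [bx, Fintype.mem_piFinset, Fin.forall_fin_two]
      rw [e] at h5 h6
      exact ⟨γ.card, (γ' \ γ).card, ⟨A, hA, γ, γ', h1, rfl, h3, rfl, h5, h6⟩, h2, h4⟩) M h
  obtain ⟨K, N₀, h₀⟩ := key
  refine ⟨K, N₀, fun N hN S hS => ?_⟩
  obtain ⟨c, e, ⟨A, hA, γ, γ', h1, h2, h3, h4, h5, h6⟩, hM, hK, hh⟩ := h₀ N hN S hS
  refine ⟨A, hA, γ, γ', h1, ?_, h3, ?_, ?_, h5, h6⟩
  · rw [h2]
    exact hM
  · rw [h4]
    exact hK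
  · rw [h4, h2]
    exact hh

end Pool.Agent.Lib.MP_90b327_co.BX
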